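import Mathlib

set_option autoImplicit false

namespace Pool.Agent.Results.MP_48fb2a_lc.Unbounded

open Sum

/-- `Run δ p w q`: some path of transitions from `δ` leads from `p` to `q` and reads `w`. -/
inductive Run {Q A : Type} (δ : Set (Q × A × Q)) : Q → List A → Q → Prop
  | nil (p) : Run δ p [] p
  | cons {p a r w q} : (p, a, r) ∈ δ → Run δ r w q → Run δ p (a :: w) q

/-- `L` is recognized by an NFA with exactly `n` states and exactly `t` transitions. -/
def Rec {A : Type} (L : Set (List A)) (n t : ℕ) : Prop :=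
  ∃ (Q : Type) (_ : Finite Q) (δ : Set (Q × A × Q)) (s : Q) (F : Set Q),
    Nat.card Q = n ∧ δ.ncard = t ∧ L = {w | ∃ f ∈ F, Run δ s w f}

/-- least number of states of an NFA for `L` -/
noncomputable def nsc {A : Type} (L : Set (List A)) : ℕ := sInf {n | ∃ t, Rec L n t}

/-- least number of transitions of an NFA for `L` -/
noncomputable def tc {A : Type} (L : Set (List A)) : ℕ := sInf {t | ∃ n, Rec L n t}

/-- least number of states of a transition-minimal NFA for `L` -/
noncomputable def T {A : Type} (L : Set (List A)) : ℕ := sInf {n | Rec L n (tc L)}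

theorem run_nil {Q A : Type} {δ : Set (Q × A × Q)} {p q} : Run δ p [] q ↔ p = q :=
  ⟨fun h => by cases h; rfl, fun h => h ▸ .nil p⟩

theorem run_cons {Q A : Type} {δ : Set (Q × A × Q)} {p q a w} :
    Run δ p (a :: w) q ↔ ∃ r, (p, a, r) ∈ δ ∧ Run δ r w q :=
  ⟨fun h => by cases h with | cons x y => exact ⟨_, x, y⟩, fun ⟨_, x, y⟩ => .cons x y⟩

theorem lang_eq {Q A : Type} {δ : Set (Q × A × Q)} {F : Set Q} (l : Q → List A → Prop)
    (h0 : ∀ p, l p [] ↔ p ∈ F) (h1 : ∀ p a w, l p (a :: w) ↔ ∃ r, (p, a, r) ∈ δ ∧ l r w)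
    (p : Q) (w : List A) : (∃ f ∈ F, Run δ p w f) ↔ l p w := by
  induction w generalizing p with
  | nil => simp [run_nil, h0]
  | cons a w ih =>
    simp only [run_cons, h1, ← ih]
    exact ⟨fun ⟨f, x, r, y, z⟩ => ⟨r, y, f, x, z⟩, fun ⟨r, y, f, x, z⟩ => ⟨f, x, r, y, z⟩⟩

/-- the word `a^i b b a^y` -/
def wd (i y : ℕ) : List Bool := List.replicate i false ++ true :: true :: List.replicate y false

theorem wd_inj {i y i' y' : ℕ} (h : wd i y = wd i' y') : i = i' ∧ y = y' := by
  induction i generalizing i' with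
  | zero =>
    cases i' with
    | zero => simpa [wd] using h
    | succ i' => simp [wd, List.replicate_succ] at h
  | succ i ih =>
    cases i' with
    | zero => simp [wd, List.replicate_succ] at h
    | succ i' =>
      have := @ih i' (by simpa [wd, List.replicate_succ] using h)
      omega

def LS {n : ℕ} (S : Set (Fin n × Fin n)) : Set (List Bool) := {w | ∃ x ∈ S, w = wd x.1 x.2}

theorem build {n : ℕ} (hn : 0 < n) (M : Type) [Fintype M] (R1 : Set (Fin n × M))
    (R2 : Set (M × Fin n)) (S : Set (Fin n × Fin n))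
    (hS : ∀ i y, (i, y) ∈ S ↔ ∃ m, (i, m) ∈ R1 ∧ (m, y) ∈ R2) :
    ∃ t ≤ n + R1.ncard + R2.ncard + n, Rec (LS S) (n + Fintype.card M + n) t := by
  classical
  let Q := (Fin n ⊕ M) ⊕ Fin n
  let d1 : Set (Q × Bool × Q) := (fun i : Fin n =>
    (inl (inl i), false, inl (inl ⟨(i + 1) % n, Nat.mod_lt _ hn⟩))) '' {i | i.1 + 1 < n}
  let d2 : Set (Q × Bool × Q) := (fun x => (inl (inl x.1), true, inl (inr x.2))) '' R1
  let d3 : Set (Q × Bool × Q) := (fun x => (inl (inr x.1), true, inr x.2)) '' R2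
  let d4 : Set (Q × Bool × Q) := (fun i : Fin n =>
    (inr ⟨(i + 1) % n, Nat.mod_lt _ hn⟩, false, inr i)) '' {i | i.1 + 1 < n}
  have c : ∀ (f : Fin n → Q × Bool × Q) (D : Set (Fin n)), (f '' D).ncard ≤ n := fun f D =>
    (Set.ncard_image_le D.toFinite).trans
      ((Set.ncard_le_ncard D.subset_univ).trans (by simp [Set.ncard_univ]))
  refine ⟨(d1 ∪ d2 ∪ d3 ∪ d4).ncard, ?_, Q, inferInstance, _, inl (inl ⟨0, hn⟩), {inr ⟨0, hn⟩},
    by simp [Q], rfl, ?_⟩
  · refine (Set.ncard_union_le _ _).trans (add_le_add ((Set.ncard_union_le _ _).trans (add_le_add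
      ((Set.ncard_union_le _ _).trans (add_le_add (c _ _) ?_)) ?_)) (c _ _))
    · exact Set.ncard_image_le R1.toFinite
    · exact Set.ncard_image_le R2.toFinite
  let l : Q → List Bool → Prop := fun q w => match q with
    | inl (inl i) => ∃ x ∈ S, ∃ d, x.1.1 = i.1 + d ∧ w = wd d x.2
    | inl (inr m) => ∃ y, (m, y) ∈ R2 ∧ w = true :: List.replicate y false
    | inr y => w = List.replicate y false
  ext w
  simp only [Set.mem_ofPred_eq]
  rw [lang_eq l]
  · simp [l, LS]
  · rintro ((i | m) | y)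
    · simp [l, wd, Q]
    · simp [l, Q]
    · simp only [l, Set.mem_singleton_iff, Q, inr.injEq, Fin.ext_iff]
      rw [eq_comm, List.replicate_eq_nil_iff]
  · rintro p a w
    constructor
    · rcases p with ((i | m) | y)
      · rintro ⟨⟨x, y⟩, hx, d, e, h⟩
        cases d with
        | zero =>
          obtain ⟨m, m1, m2⟩ := (hS x y).1 hx
          obtain rfl : x = i := Fin.ext e
          simp only [wd, List.replicate_zero, List.nil_append, List.cons.injEq] at h
          obtain ⟨rfl, rfl⟩ := h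
          exact ⟨inl (inr m), .inl (.inl (.inr ⟨(x, m), m1, rfl⟩)), y, m2, rfl⟩
        | succ d =>
          simp only [wd, List.replicate_succ, List.cons_append, List.cons.injEq] at h
          obtain ⟨rfl, rfl⟩ := h
          have := x.2
          have k : i.1 + 1 < n := by simp only at e; omega
          refine ⟨_, .inl (.inl (.inl ⟨i, k, rfl⟩)), (x, y), hx, d, ?_, rfl⟩
          simp only [Nat.mod_eq_of_lt k] at e ⊢; omega
      · rintro ⟨y, hy, h⟩
        simp only [List.cons.injEq] at h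
        obtain ⟨rfl, rfl⟩ := h
        exact ⟨inr y, .inl (.inr ⟨(m, y), hy, rfl⟩), rfl⟩
      · intro h
        obtain ⟨y, hy⟩ := y
        cases y with
        | zero => simp [l] at h
        | succ y =>
          simp only [l, List.replicate_succ, List.cons.injEq] at h
          obtain ⟨rfl, rfl⟩ := h
          refine ⟨inr ⟨y, by omega⟩, .inr ⟨⟨y, by omega⟩, hy, ?_⟩, rfl⟩
          simp [Nat.mod_eq_of_lt hy]
    · rintro ⟨r, ((⟨i, k, e⟩ | ⟨⟨i, m⟩, k, e⟩) | ⟨⟨m, y⟩, k, e⟩) | ⟨i, k, e⟩, h⟩ <;> cases e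
      · obtain ⟨x, hx, d, e, rfl⟩ := h
        refine ⟨x, hx, d + 1, ?_, rfl⟩
        simp only [Nat.mod_eq_of_lt k] at e; omega
      · obtain ⟨y, hy, rfl⟩ := h
        exact ⟨(i, y), (hS _ _).2 ⟨m, k, hy⟩, 0, rfl, rfl⟩
      · exact ⟨y, k, congrArg _ h⟩
      · change _ = List.replicate ((i + 1) % n) false
        rw [Nat.mod_eq_of_lt k, List.replicate_succ]
        exact congrArg _ h

theorem transport {A : Type} [Finite A] {L : Set (List A)} {n t s : ℕ} (h : Rec L n t) (hs : n ≤ s) :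
    ∃ (x : Fin s × Set (Fin s) × Finset (Fin s × A × Fin s)), x.2.2.card = t ∧
      L = {w | ∃ f ∈ x.2.1, Run (x.2.2 : Set _) x.1 w f} := by
  classical
  obtain ⟨Q, _, δ, q, F, rfl, rfl, rfl⟩ := h
  haveI := Fintype.ofFinite Q
  obtain ⟨e⟩ : Nonempty (Q ↪ Fin s) := Function.Embedding.nonempty_of_card_le (by
    rwa [← Nat.card_eq_fintype_card, Fintype.card_fin])
  let g : Q × A × Q → Fin s × A × Fin s := fun x => (e x.1, x.2.1, e x.2.2)
  have hg : Function.Injective g := by
    rintro ⟨a, b, c⟩ ⟨a', b', c'⟩ h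
    simpa [g] using h
  refine ⟨(e q, e '' F, (g '' δ).toFinite.toFinset), ?_, ?_⟩
  · rw [← Set.ncard_eq_toFinset_card, Set.ncard_image_of_injective _ hg]
  ext w
  simp only [Set.mem_ofPred_eq, Set.Finite.coe_toFinset]
  rw [lang_eq (δ := g '' δ) (F := e '' F) fun p w => ∃ p', p = e p' ∧ ∃ f ∈ F, Run δ p' w f]
  · simp
  · intro p
    simp [run_nil, eq_comm, and_comm]
  · intro p a w
    constructor
    · rintro ⟨p, rfl, f, hf, h⟩
      obtain ⟨r, x, y⟩ := run_cons.1 h
      exact ⟨e r, ⟨(p, a, r), x, rfl⟩, r, rfl, f, hf, y⟩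
    · rintro ⟨r, ⟨⟨p, a, r⟩, x, y⟩, r', z, f, hf, h⟩
      cases y
      obtain rfl := e.injective z
      exact ⟨p, rfl, f, hf, .cons x h⟩

theorem sparse (X : Type) [Fintype X] (t m : ℕ) (hm : 1 ≤ m) :
    (Nat.card {D : Finset X // D.card ≤ t} : ℝ) ≤ Real.exp (m * t + Fintype.card X / m) := by
  classical
  have m1 : (1 : ℝ) ≤ m := by exact_mod_cast hm
  have m0 : (0 : ℝ) < m := by linarith
  have a := Finset.prod_one_add (R := ℝ) (f := fun _ : X => (m : ℝ)⁻¹) Finset.univ
  simp only [Finset.prod_const, Finset.card_univ, Finset.powerset_univ] at a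
  have b : (Nat.card {D : Finset X // D.card ≤ t} : ℝ) * (m : ℝ)⁻¹ ^ t ≤
      ∑ D : Finset X, (m : ℝ)⁻¹ ^ D.card := by
    rw [Nat.card_eq_fintype_card, Fintype.card_subtype, ← nsmul_eq_mul, ← Finset.sum_const]
    refine (Finset.sum_le_sum fun D hD => ?_).trans
      (Finset.sum_le_sum_of_subset_of_nonneg (Finset.subset_univ _) fun _ _ _ => by positivity)
    exact pow_le_pow_of_le_one (by positivity) (inv_le_one_of_one_le₀ m1) (by simpa using hD)
  rw [← a, inv_pow, ← div_eq_mul_inv, div_le_iff₀ (by positivity)] at b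
  refine b.trans ?_
  rw [Real.exp_add, mul_comm, mul_comm (m : ℝ), Real.exp_nat_mul, div_eq_mul_inv,
    Real.exp_nat_mul]
  gcongr
  · linarith [Real.add_one_le_exp (m : ℝ)]
  · linarith [Real.add_one_le_exp (m : ℝ)⁻¹]

theorem result : ∀ C : ℕ, ∃ L : Set (List Bool), (∃ n t, Rec L n t) ∧ C * nsc L < T L := by
  classical
  intro C0
  by_contra H
  push Not at H
  let C := C0 + 1
  let m := 144 * C ^ 2
  let j := 8 * m
  let r := 2 ^ j + 2
  let n := r * j
  have C1 : 1 ≤ C := by omega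
  have m1 : 1 ≤ m := by have := Nat.one_le_pow 2 C C1; omega
  have hn : 0 < n := by positivity
  let s := 3 * C * n
  let t := n + n * r + r * 2 ^ j * j + n
  have key : ∀ S : Set (Fin n × Fin n), ∃ x : Fin s × Set (Fin s) ×
      {D : Finset (Fin s × Bool × Fin s) // D.card ≤ t},
      LS S = {w | ∃ f ∈ x.2.1, Run (x.2.2.1 : Set _) x.1 w f} := by
    intro S
    obtain ⟨t1, -, h1⟩ := build hn (Fin n) {x | x.1 = x.2} S S (by simp)
    have a1 : nsc (LS S) ≤ n + Fintype.card (Fin n) + n := Nat.sInf_le ⟨t1, h1⟩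
    obtain ⟨t2, b2, h2⟩ := build hn (Fin r × Set (Fin j))
      ((fun x : Fin n × Fin r => (x.1, x.2, {o | (x.1, finProdFinEquiv (x.2, o)) ∈ S})) '' Set.univ)
      ((fun x : (Fin r × Set (Fin j)) × Fin j => (x.1, finProdFinEquiv (x.1.1, x.2))) ''
        {x | x.2 ∈ x.1.2}) S (by
        intro i y
        constructor
        · intro h
          obtain ⟨⟨b, o⟩, rfl⟩ := finProdFinEquiv.surjective y
          exact ⟨_, ⟨(i, b), trivial, rfl⟩,
            ((b, {o | (i, finProdFinEquiv (b, o)) ∈ S}), o), h, rfl⟩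
        · rintro ⟨_, ⟨⟨i, b⟩, -, e⟩, ⟨x, o⟩, h, e'⟩
          cases e
          cases e'
          exact h)
    have a3 : tc (LS S) ≤ t2 := Nat.sInf_le ⟨_, h2⟩
    have a2 : tc (LS S) ≤ t := a3.trans (b2.trans (by
      refine add_le_add (add_le_add (add_le_add le_rfl ?_) ?_) le_rfl
      · exact (Set.ncard_image_le Set.finite_univ).trans (by simp [Set.ncard_univ])
      · exact (Set.ncard_image_le (Set.toFinite _)).trans
          ((Set.ncard_le_ncard (Set.subset_univ _)).trans (by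
            simp [Set.ncard_univ, Fintype.card_set]))))
    obtain ⟨n', h3⟩ : tc (LS S) ∈ {t | ∃ n, Rec (LS S) n t} := Nat.sInf_mem ⟨_, _, h1⟩
    have h4 : T (LS S) ∈ {n | Rec (LS S) n (tc (LS S))} := Nat.sInf_mem ⟨_, h3⟩
    obtain ⟨x, x1, x2⟩ := transport (s := s) h4 ((H _ ⟨_, _, h1⟩).trans (by
      simp only [Fintype.card_fin] at a1
      calc C0 * nsc (LS S) ≤ C * (n + n + n) := Nat.mul_le_mul (Nat.le_succ _) a1
        _ = s := by ring))
    exact ⟨(x.1, x.2.1, ⟨x.2.2, x1 ▸ a2⟩), x2⟩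
  choose g hg using key
  have inj : Function.Injective g := by
    intro S S' e
    have : LS S = LS S' := by rw [hg, hg, e]
    have k : ∀ S S' : Set (Fin n × Fin n), LS S = LS S' → S ⊆ S' := by
      intro S S' e x hx
      obtain ⟨y, hy, k⟩ : wd x.1 x.2 ∈ LS S' := e ▸ ⟨x, hx, rfl⟩
      obtain rfl : x = y := Prod.ext (Fin.ext (wd_inj k).1) (Fin.ext (wd_inj k).2)
      exact hy
    exact (k _ _ this).antisymm (k _ _ this.symm)
  have c := Nat.card_le_card_of_injective g inj
  rw [Nat.card_prod, Nat.card_prod] at c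
  simp only [Nat.card_eq_fintype_card (α := Set _), Fintype.card_set, Fintype.card_prod,
    Fintype.card_fin, Nat.card_eq_fintype_card (α := Fin s)] at c
  have c' : (2 : ℝ) ^ (n * n) ≤ s * (2 ^ s *
      (Nat.card {D : Finset (Fin s × Bool × Fin s) // D.card ≤ t} : ℝ)) := by exact_mod_cast c
  have sp := sparse (Fin s × Bool × Fin s) t m m1
  simp only [Fintype.card_prod, Fintype.card_fin, Fintype.card_bool] at sp
  have e1 : (s : ℝ) ≤ Real.exp s := by linarith [Real.add_one_le_exp (s : ℝ)]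
  have e2 : (2 : ℝ) ^ s ≤ Real.exp s := by
    rw [← mul_one (s : ℝ), Real.exp_nat_mul]
    gcongr
    linarith [Real.add_one_le_exp (1 : ℝ)]
  have e3 : Real.exp ((n * n : ℕ) * (1 / 2)) < 2 ^ (n * n) := by
    rw [Real.exp_nat_mul]
    refine pow_lt_pow_left₀ ?_ (by positivity) (by positivity)
    have := Real.log_two_gt_d9
    exact (Real.exp_lt_exp.2 (by linarith)).trans_eq (Real.exp_log two_pos)
  have e4 := c'.trans (mul_le_mul e1 (mul_le_mul e2 sp (Nat.cast_nonneg _) (Real.exp_pos _).le)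
    (mul_nonneg (pow_nonneg zero_le_two _) (Nat.cast_nonneg _)) (Real.exp_pos _).le)
  rw [← Real.exp_add, ← Real.exp_add] at e4
  have e5 := Real.exp_lt_exp.1 (e3.trans_le e4)
  have e6 : ((s * (2 * s) : ℕ) : ℝ) / m = (n * n : ℕ) / 8 := by
    have : (0 : ℝ) < C := by exact_mod_cast C1
    simp only [s, m]
    push_cast
    field_simp
    ring
  rw [e6] at e5
  have e7 : 4 * (m * t) = n * n := by
    simp only [t, n, r, j]
    ring
  have e8 : 16 * s ≤ n * n := by
    have : 48 * C ≤ n := by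
      have : C ≤ C ^ 2 := Nat.le_self_pow two_ne_zero C
      have : j ≤ n := Nat.le_mul_of_pos_left j (by positivity)
      omega
    calc 16 * s = 48 * C * n := by ring
      _ ≤ n * n := Nat.mul_le_mul_right _ this
  have e7' : (4 : ℝ) * (m * t) = (n * n : ℕ) := by exact_mod_cast e7
  have e8' : (16 : ℝ) * s ≤ (n * n : ℕ) := by exact_mod_cast e8
  linarith

end Pool.Agent.Results.MP_48fb2a_lc.Unbounded
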